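import Pool.Agent.Helper85.MU.Stmts

/-! PRO: products of constant coefficients of factors. -/

set_option autoImplicit false
set_option maxHeartbeats 800000

open Polynomial

namespace MU

theorem pro_hom (L : Type) [Field L] [IsAlgClosed L] (Z : Type) [CommRing Z] [IsDomain Z]
    [CharZero Z] [Algebra.IsIntegral ℤ Z] : Nonempty (Z →+* L) := by
  obtain ⟨p, hp⟩ := CharP.exists L
  by_cases h0 : p = 0
  · subst h0
    have : CharZero L := CharP.charP_to_charZero L
    have f : Z →ₐ[ℤ] L := IsAlgClosed.lift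
    exact ⟨f.toRingHom⟩
  · have hpp : p.Prime := (CharP.char_is_prime_or_zero L p).resolve_right h0
    have : Fact p.Prime := ⟨hpp⟩
    have hpI : Prime (p : ℤ) := Nat.prime_iff_prime_int.mp hpp
    have hmax : (Ideal.span {(p : ℤ)}).IsMaximal :=
      PrincipalIdealRing.isMaximal_of_irreducible hpI.irreducible
    obtain ⟨Q, hQ, hQc⟩ := Ideal.exists_ideal_over_maximal_of_isIntegral (S := Z)
      (Ideal.span {(p : ℤ)}) (by
        intro x hx
        rw [RingHom.mem_ker] at hx
        have : x = 0 := by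
          have h2 : ((x : ℤ) : Z) = 0 := by simpa using hx
          exact_mod_cast h2
        rw [this]; exact Ideal.zero_mem _)
    let : Field (Z ⧸ Q) := Ideal.Quotient.field Q
    have : CharP (Z ⧸ Q) p := by
      have hpz : ((p : ℕ) : Z ⧸ Q) = 0 := by
        have h1 : (p : ℤ) ∈ Q.comap (algebraMap ℤ Z) := by
          rw [hQc]; exact Ideal.mem_span_singleton_self _
        have h2 : ((p : ℕ) : Z) ∈ Q := by
          have := Ideal.mem_comap.mp h1
          simpa using this
        have h3 := Ideal.Quotient.eq_zero_iff_mem.mpr h2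
        simpa using h3
      obtain ⟨q, hq⟩ := CharP.exists (Z ⧸ Q)
      have hd := (CharP.cast_eq_zero_iff (Z ⧸ Q) q p).mp hpz
      rcases (Nat.dvd_prime hpp).mp hd with h1 | h1
      · exact absurd h1 (CharP.char_ne_one (Z ⧸ Q) q)
      · rw [h1] at hq; exact hq
    let : Algebra (ZMod p) (Z ⧸ Q) := ZMod.algebra _ p
    let : Algebra (ZMod p) L := ZMod.algebra _ p
    have : Algebra.IsAlgebraic (ZMod p) (Z ⧸ Q) := by
      refine ⟨fun x => ?_⟩
      obtain ⟨z, rfl⟩ := Ideal.Quotient.mk_surjective x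
      have hz : IsIntegral ℤ z := Algebra.IsIntegral.isIntegral z
      have hz2 : IsIntegral ℤ (Ideal.Quotient.mk Q z) := by
        have := hz.map (Ideal.Quotient.mkₐ ℤ Q)
        simpa using this
      have hz3 : IsIntegral (ZMod p) (Ideal.Quotient.mk Q z) := hz2.tower_top
      exact hz3.isAlgebraic
    have f : (Z ⧸ Q) →ₐ[ZMod p] L := IsAlgClosed.lift
    exact ⟨f.toRingHom.comp (Ideal.Quotient.mk Q)⟩

theorem pro_sub {α β : Type} (f : α → β) (s : Multiset β) (t : Multiset α)
    (h : s ≤ t.map f) : ∃ u ≤ t, s = u.map f := by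
  have h1 : s ∈ Multiset.powersetCard (Multiset.card s) (t.map f) :=
    Multiset.mem_powersetCard.mpr ⟨h, rfl⟩
  rw [Multiset.powersetCard_map] at h1
  obtain ⟨u, hu, hus⟩ := Multiset.mem_map.mp h1
  exact ⟨u, (Multiset.mem_powersetCard.mp hu).1, hus.symm⟩

theorem pro_enum {α : Type} (s : Multiset α) (n : ℕ) (h : Multiset.card s = n) :
    ∃ a : Fin n → α, s = (Finset.univ : Finset (Fin n)).val.map a := by
  subst h
  induction s using Quotient.inductionOn with
  | h l =>
    refine ⟨fun j => l.get j, ?_⟩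
    show (l : Multiset α) = _
    rw [Fin.univ_val_map]
    simp

/-- the splitting over the ring of all algebraic integers -/
theorem pro_split (P : Polynomial ℤ) (hP : P.Monic) :
    ∃ a : Fin P.natDegree → integralClosure ℤ ℂ,
      P.map (algebraMap ℤ (integralClosure ℤ ℂ)) = ∏ j, (X - C (a j)) := by
  set Pc : Polynomial ℂ := P.map (algebraMap ℤ ℂ) with hPc
  have hm : Pc.Monic := hP.map _
  have hsp : Pc.Splits := IsAlgClosed.splits Pc
  have hdeg : Pc.natDegree = P.natDegree := hP.natDegree_map _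
  obtain ⟨a, ha⟩ := pro_enum Pc.roots P.natDegree (by
    rw [splits_iff_card_roots.mp hsp, hdeg])
  have hint : ∀ j, a j ∈ integralClosure ℤ ℂ := by
    intro j
    have h1 : a j ∈ Pc.roots := by
      rw [ha]; exact Multiset.mem_map_of_mem a (Finset.mem_univ j)
    have h2 : Pc.IsRoot (a j) := isRoot_of_mem_roots h1
    refine ⟨P, hP, ?_⟩
    rw [← eval_map]
    exact h2
  refine ⟨fun j => ⟨a j, hint j⟩, ?_⟩
  apply Polynomial.map_injective (algebraMap (integralClosure ℤ ℂ) ℂ)
    (FaithfulSMul.algebraMap_injective _ _)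
  rw [Polynomial.map_map, ← IsScalarTower.algebraMap_eq, Polynomial.map_prod]
  have h3 := hsp.eq_prod_roots_of_monic hm
  rw [← hPc, h3, ha]
  simp only [Polynomial.map_sub, Polynomial.map_X, Polynomial.map_C, Multiset.map_map,
    Finset.prod]
  rfl

/-- a monic divisor of a product of linear factors -/
theorem pro_div (L : Type) [Field L] [IsAlgClosed L] (n m : ℕ) (b : Fin n → L)
    (Q : Polynomial L) (hQ : Q.Monic) (hm : Q.natDegree = m)
    (hd : Q ∣ ∏ j, (X - C (b j))) :
    ∃ J : Finset (Fin n), J.card = m ∧ (-1) ^ m * Q.coeff 0 = ∏ j ∈ J, b j := by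
  classical
  have hprod : (∏ j, (X - C (b j))) = ((Finset.univ.val.map b).map (fun a => X - C a)).prod := by
    rw [Multiset.map_map]; rfl
  have hne : (∏ j, (X - C (b j))) ≠ 0 :=
    Finset.prod_ne_zero_iff.mpr fun j _ => X_sub_C_ne_zero _
  have hroots : Q.roots ≤ (Finset.univ : Finset (Fin n)).val.map b := by
    have h1 := Polynomial.roots.le_of_dvd hne hd
    rw [hprod, Polynomial.roots_multiset_prod_X_sub_C] at h1
    exact h1
  obtain ⟨u, hu, hus⟩ := pro_sub b Q.roots _ hroots
  have hnd : u.Nodup := Multiset.nodup_of_le hu Finset.univ.nodup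
  have hsp : Q.Splits := IsAlgClosed.splits Q
  have hcard : Multiset.card Q.roots = Q.natDegree := (splits_iff_card_roots.mp hsp)
  refine ⟨⟨u, hnd⟩, ?_, ?_⟩
  · rw [Finset.card_mk, ← hm, ← hcard, hus, Multiset.card_map]
  · have h2 : Q.coeff 0 = (-1) ^ Q.natDegree * Q.roots.prod := 
      hsp.coeff_zero_eq_prod_roots_of_monic hQ
    rw [h2, hm, ← mul_assoc, ← pow_add, ← two_mul, pow_mul]
    simp only [neg_one_sq, one_pow, one_mul]
    rw [hus]
    rfl

theorem st_PRO : ST_PRO := by
  classical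
  intro r m N₁ N₂ R P hmon hroot hne
  set Z := integralClosure ℤ ℂ with hZ
  choose a ha using fun i => pro_split (P i) (hmon i)
  -- the roots
  have hR : ∀ i (j : Fin (P i).natDegree), ‖((a i j : Z) : ℂ)‖ ^ 2 = R i := by
    intro i j
    apply hroot i
    have h1 : (P i).map (Int.castRingHom ℂ) =
        ((P i).map (algebraMap ℤ Z)).map (algebraMap Z ℂ) := by
      rw [Polynomial.map_map, ← IsScalarTower.algebraMap_eq]; rfl
    rw [h1, ha i, IsRoot, Polynomial.map_prod, eval_prod]
    apply Finset.prod_eq_zero (Finset.mem_univ j)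
    simp
  let T : Finset (∀ i : Fin r, Finset (Fin (P i).natDegree)) :=
    Finset.univ.filter fun J => ∀ i, (J i).card = m
  let del : (∀ i : Fin r, Finset (Fin (P i).natDegree)) → Z := fun J =>
    (N₁ : Z) * ∏ i, ∏ j ∈ J i, a i j - (N₂ : Z)
  have hdel : ∀ J ∈ T, del J ≠ 0 := by
    intro J hJ h0
    have hJ2 : ∀ i, (J i).card = m := (Finset.mem_filter.mp hJ).2
    apply hne
    have h1 : ((N₁ : Z) * ∏ i, ∏ j ∈ J i, a i j : Z) = (N₂ : Z) := sub_eq_zero.mp h0
    have h2 : (N₁ : ℂ) * ∏ i, ∏ j ∈ J i, ((a i j : Z) : ℂ) = (N₂ : ℂ) := by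
      have := congrArg (algebraMap Z ℂ) h1
      rw [map_mul, map_prod, map_natCast, map_natCast] at this
      simp only [map_prod] at this
      exact this
    have h3 := congrArg (fun z : ℂ => ‖z‖ ^ 2) h2
    simp only [norm_mul, norm_prod, mul_pow, ← Finset.prod_pow, hR] at h3
    rw [Complex.norm_natCast, Complex.norm_natCast] at h3
    rw [← h3]
    congr 1
    apply Finset.prod_congr rfl
    intro i _
    rw [Finset.prod_const, hJ2 i]
  have hD0 : (∏ J ∈ T, del J) ≠ 0 := Finset.prod_ne_zero_iff.mpr hdel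
  have hcomap := Ideal.comap_ne_bot_of_integral_mem (R := ℤ) (I := Ideal.span {∏ J ∈ T, del J})
    hD0 (Ideal.mem_span_singleton_self _) (Algebra.IsIntegral.isIntegral (R := ℤ) _)
  obtain ⟨D, hD, hDne⟩ := Submodule.exists_mem_ne_zero_of_ne_bot hcomap
  refine ⟨D, hDne, ?_⟩
  intro K _ Q hQ hprod
  let L := AlgebraicClosure K
  obtain ⟨ψ⟩ := pro_hom L Z
  have hmap : ∀ i, ((Q i).map (algebraMap K L)) ∣ ∏ j, (X - C (ψ (a i j))) := by
    intro i
    have h1 := Polynomial.map_dvd (algebraMap K L) (hQ i).2.2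
    have h2 : ((P i).map (Int.castRingHom K)).map (algebraMap K L) =
        ((P i).map (algebraMap ℤ Z)).map ψ := by
      rw [Polynomial.map_map, Polynomial.map_map]
      congr 1
      exact RingHom.ext_int _ _
    rw [h2, ha i, Polynomial.map_prod] at h1
    simpa using h1
  have hJ : ∀ i, ∃ J : Finset (Fin (P i).natDegree), J.card = m ∧
      (-1) ^ m * ((Q i).map (algebraMap K L)).coeff 0 = ∏ j ∈ J, ψ (a i j) := by
    intro i
    exact pro_div L _ m (fun j => ψ (a i j)) _ ((hQ i).1.map _)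
      (by rw [(hQ i).1.natDegree_map, (hQ i).2.1]) (hmap i)
  choose J hJc hJp using hJ
  have hJT : J ∈ T := Finset.mem_filter.mpr ⟨Finset.mem_univ _, hJc⟩
  have hz : ψ (del J) = 0 := by
    have h1 := congrArg (algebraMap K L) hprod
    rw [map_mul, map_prod, map_natCast, map_natCast] at h1
    have h2 : ∀ i, algebraMap K L ((-1) ^ m * (Q i).coeff 0) = ∏ j ∈ J i, ψ (a i j) := by
      intro i
      rw [← hJp i, map_mul, map_pow, map_neg, map_one, coeff_map]
    simp only [h2] at h1
    show ψ ((N₁ : Z) * ∏ i, ∏ j ∈ J i, a i j - (N₂ : Z)) = 0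
    rw [map_sub, map_mul, map_prod, map_natCast, map_natCast]
    simp only [map_prod]
    rw [h1, sub_self]
  have hDL : ((D : ℤ) : L) = 0 := by
    obtain ⟨e, he⟩ := Ideal.mem_span_singleton.mp (Ideal.mem_comap.mp hD)
    have h1 : ψ (algebraMap ℤ Z D) = 0 := by
      rw [he, map_mul, map_prod, Finset.prod_eq_zero hJT hz, zero_mul]
    have h2 : ψ (algebraMap ℤ Z D) = (D : L) := by simp
    rw [← h2, h1]
  have h3 : algebraMap K L (D : K) = 0 := by rw [map_intCast]; exact hDL
  exact (map_eq_zero (algebraMap K L)).mp h3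

end MU
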